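import Mathlib

/-!
# Signs of quadratic residues: sums and correlations
-/

set_option autoImplicit false

namespace Pool.Agent.Work.MP_62db8e_nt.Up

open Finset

section

variable (p : ℕ) [Fact p.Prime]

/-- sign of a residue: `1` for nonzero squares, `-1` otherwise -/
noncomputable def sg (u : ZMod p) : ℤ := if quadraticChar (ZMod p) u = 1 then 1 else -1

theorem sg_eq (u : ZMod p) : sg p u = quadraticChar (ZMod p) u - if u = 0 then 1 else 0 := by
  unfold sg
  by_cases hu : u = 0
  · subst hu
    simp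
  · rcases quadraticChar_dichotomy hu with h | h
    · rw [h]; simp [hu]
    · rw [h]; simp [hu]

theorem sg_cases (u : ZMod p) : sg p u = 1 ∨ sg p u = -1 := by
  unfold sg
  split_ifs
  · exact Or.inl rfl
  · exact Or.inr rfl

variable {p}

theorem chi_corr (hp : p ≠ 2) (b : ZMod p) (hb : b ≠ 0) :
    ∑ u : ZMod p, quadraticChar (ZMod p) u * quadraticChar (ZMod p) (u + b) = -1 := by
  classical
  have hchar : ringChar (ZMod p) ≠ 2 := by rwa [ZMod.ringChar_zmod_n]
  have h0 : ∑ u : ZMod p, quadraticChar (ZMod p) (1 + b * u⁻¹) = 0 := by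
    rw [← quadraticChar_sum_zero hchar]
    refine Fintype.sum_bijective (fun u : ZMod p => 1 + b * u⁻¹) ?_ _ _ (fun u => rfl)
    have hinj : Function.Injective (fun u : ZMod p => 1 + b * u⁻¹) := by
      intro u v huv
      have h1 : b * u⁻¹ = b * v⁻¹ := add_left_cancel huv
      exact inv_injective (mul_left_cancel₀ hb h1)
    exact Finite.injective_iff_bijective.1 hinj
  have h1 : ∀ u : ZMod p, quadraticChar (ZMod p) u * quadraticChar (ZMod p) (u + b)
      = quadraticChar (ZMod p) (1 + b * u⁻¹) - if u = 0 then 1 else 0 := by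
    intro u
    by_cases hu : u = 0
    · subst hu
      simp
    · rw [if_neg hu, sub_zero]
      have h2 : u + b = u * (1 + b * u⁻¹) := by
        field_simp
      rw [h2, map_mul, ← mul_assoc, ← sq, quadraticChar_sq_one hu, one_mul]
  simp_rw [h1]
  rw [Finset.sum_sub_distrib, h0, Finset.sum_ite_eq' Finset.univ (0 : ZMod p)]
  simp

theorem sum_sg (hp : p ≠ 2) : ∑ u : ZMod p, sg p u = -1 := by
  classical
  have hchar : ringChar (ZMod p) ≠ 2 := by rwa [ZMod.ringChar_zmod_n]
  simp_rw [sg_eq]
  rw [Finset.sum_sub_distrib, quadraticChar_sum_zero hchar,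
    Finset.sum_ite_eq' Finset.univ (0 : ZMod p)]
  simp

theorem sum_sg_shift (hp : p ≠ 2) (b : ZMod p) : ∑ u : ZMod p, sg p (u + b) = -1 := by
  rw [← sum_sg hp]
  exact Fintype.sum_equiv (Equiv.addRight b) _ _ (fun u => rfl)

theorem sg_corr (hp : p ≠ 2) (b : ZMod p) (hb : b ≠ 0) :
    |∑ u : ZMod p, sg p u * sg p (u + b)| ≤ 3 := by
  classical
  have h1 : ∑ u : ZMod p, sg p u * sg p (u + b) =
      -1 - quadraticChar (ZMod p) (-b) - quadraticChar (ZMod p) b := by
    have h2 : ∀ u : ZMod p, sg p u * sg p (u + b) =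
        quadraticChar (ZMod p) u * quadraticChar (ZMod p) (u + b)
          - (if u = -b then quadraticChar (ZMod p) (-b) else 0)
          - (if u = 0 then quadraticChar (ZMod p) b else 0) := by
      intro u
      rw [sg_eq, sg_eq]
      by_cases hu : u = 0
      · subst hu
        have h3 : (0 : ZMod p) ≠ -b := fun h => hb (by rw [← neg_neg b, ← h, neg_zero])
        simp [hb, h3]
      · by_cases hub : u = -b
        · subst hub
          simp [hb]
        · have h4 : u + b ≠ 0 := fun h => hub (eq_neg_of_add_eq_zero_left h)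
          simp [hu, hub, h4]
    simp_rw [h2]
    rw [Finset.sum_sub_distrib, Finset.sum_sub_distrib, chi_corr hp b hb,
      Finset.sum_ite_eq' Finset.univ (-b), Finset.sum_ite_eq' Finset.univ (0 : ZMod p)]
    simp
  have h3 : |quadraticChar (ZMod p) b| ≤ 1 := by
    rcases quadraticChar_dichotomy hb with h | h <;> rw [h] <;> simp
  have h4 : |quadraticChar (ZMod p) (-b)| ≤ 1 := by
    rcases quadraticChar_dichotomy (neg_ne_zero.2 hb) with h | h <;> rw [h] <;> simp
  rw [h1]
  rw [abs_le] at h3 h4 ⊢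
  constructor <;> linarith [h3.1, h3.2, h4.1, h4.2]

/-- counting pairs of signs -/
theorem card_pair (hp : p ≠ 2) (b : ZMod p) (hb : b ≠ 0) (σ τ : ℤ) (hσ : σ = 1 ∨ σ = -1)
    (hτ : τ = 1 ∨ τ = -1) :
    4 * ((univ.filter fun u : ZMod p => sg p u = σ ∧ sg p (u + b) = τ).card : ℤ) ≤ p + 5 := by
  classical
  have h1 : 4 * ((univ.filter fun u : ZMod p => sg p u = σ ∧ sg p (u + b) = τ).card : ℤ) =
      ∑ u : ZMod p, (1 + σ * sg p u) * (1 + τ * sg p (u + b)) := by
    rw [Finset.card_filter]
    push_cast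
    rw [Finset.mul_sum]
    refine Finset.sum_congr rfl fun u _ => ?_
    rcases hσ with rfl | rfl <;> rcases hτ with rfl | rfl <;>
      rcases sg_cases p u with h | h <;> rcases sg_cases p (u + b) with h' | h' <;>
      rw [h, h'] <;> norm_num
  have h2 : ∑ u : ZMod p, (1 + σ * sg p u) * (1 + τ * sg p (u + b)) =
      p + σ * (-1) + τ * (-1) + σ * τ * ∑ u : ZMod p, sg p u * sg p (u + b) := by
    have h3 : ∀ u : ZMod p, (1 + σ * sg p u) * (1 + τ * sg p (u + b)) =
        1 + σ * sg p u + τ * sg p (u + b) + σ * τ * (sg p u * sg p (u + b)) := fun u => by ring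
    simp_rw [h3]
    rw [Finset.sum_add_distrib, Finset.sum_add_distrib, Finset.sum_add_distrib,
      ← Finset.mul_sum, ← Finset.mul_sum, ← Finset.mul_sum, sum_sg hp, sum_sg_shift hp]
    simp [ZMod.card]
  rw [h1, h2]
  have h3 := abs_le.1 (sg_corr hp b hb)
  rcases hσ with rfl | rfl <;> rcases hτ with rfl | rfl <;> linarith [h3.1, h3.2]

/-- counting signs -/
theorem card_sg (hp : p ≠ 2) (σ : ℤ) (hσ : σ = 1 ∨ σ = -1) :
    2 * ((univ.filter fun u : ZMod p => sg p u = σ).card : ℤ) = p - σ := by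
  classical
  have h1 : 2 * ((univ.filter fun u : ZMod p => sg p u = σ).card : ℤ) =
      ∑ u : ZMod p, (1 + σ * sg p u) := by
    rw [Finset.card_filter]
    push_cast
    rw [Finset.mul_sum]
    refine Finset.sum_congr rfl fun u _ => ?_
    rcases hσ with rfl | rfl <;> rcases sg_cases p u with h | h <;> rw [h] <;> norm_num
  rw [h1, Finset.sum_add_distrib, ← Finset.mul_sum, sum_sg hp]
  simp [ZMod.card]
  ring

end

end Pool.Agent.Work.MP_62db8e_nt.Up
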