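import Mathlib
import Pool.Agent.Work.MP_62db8e_nt.Up.Leg

/-!
# Periodic level functions with nearly independent shifts
-/

set_option autoImplicit false

namespace Pool.Agent.Work.MP_62db8e_nt.Up

open Finset

/-- a level function on `ZMod P` with `2 ^ m` levels, nearly equidistributed and nearly
uncorrelated with its shifts (in the direction that is needed) -/
structure Good (m : ℕ) (ε : ℝ) (P : ℕ) [NeZero P] (lam : ZMod P → ℕ) : Prop where
  lt : ∀ v, lam v < 2 ^ m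
  cnt : ∀ H ≤ 2 ^ m,
    |((univ.filter fun v => lam v < H).card : ℝ) - (H / 2 ^ m) * P| ≤ ε * P
  pair : ∀ b : ZMod P, ∀ H ≤ 2 ^ m, ∀ H' ≤ 2 ^ m,
    ((univ.filter fun v => lam v < H ∧ H' ≤ lam (v + b)).card : ℝ) ≤
      ((H / 2 ^ m) * (1 - H' / 2 ^ m) + ε) * P

/-- threshold of the lower bits -/
def hs (m H : ℕ) (σ : ℤ) : ℕ := if σ = 1 then H - 2 ^ m else min H (2 ^ m)

theorem hs_le {m H : ℕ} (hH : H ≤ 2 ^ (m + 1)) (σ : ℤ) : hs m H σ ≤ 2 ^ m := by
  unfold hs
  split_ifs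
  · rw [pow_succ] at hH; omega
  · exact min_le_right _ _

theorem hs_sum {m H : ℕ} :
    (hs m H 1 : ℝ) + (hs m H (-1) : ℝ) = H := by
  have h : hs m H 1 + hs m H (-1) = H := by
    unfold hs
    rw [if_pos rfl, if_neg (by norm_num)]
    omega
  exact_mod_cast h

theorem hs_anti (m H : ℕ) (hH : H ≤ 2 ^ (m + 1)) : hs m H 1 ≤ hs m H (-1) := by
  unfold hs
  rw [if_pos rfl, if_neg (by norm_num)]
  rw [pow_succ] at hH
  omega

theorem hs_lt {m H l : ℕ} (hl : l < 2 ^ m) {σ : ℤ} (hσ : σ = 1 ∨ σ = -1) :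
    (if σ = 1 then 2 ^ m else 0) + l < H ↔ l < hs m H σ := by
  unfold hs
  rcases hσ with rfl | rfl
  · rw [if_pos rfl, if_pos rfl]; omega
  · rw [if_neg (by norm_num), if_neg (by norm_num)]; omega

theorem hs_ge {m H l : ℕ} (hl : l < 2 ^ m) {σ : ℤ} (hσ : σ = 1 ∨ σ = -1) :
    H ≤ (if σ = 1 then 2 ^ m else 0) + l ↔ hs m H σ ≤ l := by
  unfold hs
  rcases hσ with rfl | rfl
  · rw [if_pos rfl, if_pos rfl]; omega
  · rw [if_neg (by norm_num), if_neg (by norm_num)]; omega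

section

variable {p : ℕ} [Fact p.Prime]

theorem sum_pair_le (hp : p ≠ 2) (b : ZMod p) (hb : b ≠ 0) (g : ℤ → ℤ → ℝ)
    (h11 : 0 ≤ g 1 1) (h12 : 0 ≤ g 1 (-1)) (h21 : 0 ≤ g (-1) 1) (h22 : 0 ≤ g (-1) (-1)) :
    ∑ u : ZMod p, g (sg p u) (sg p (u + b)) ≤
      ((p : ℝ) + 5) / 4 * (g 1 1 + g 1 (-1) + g (-1) 1 + g (-1) (-1)) := by
  classical
  have h1 : ∀ u : ZMod p, g (sg p u) (sg p (u + b)) =
      (if sg p u = 1 ∧ sg p (u + b) = 1 then (1 : ℝ) else 0) * g 1 1 +
      (if sg p u = 1 ∧ sg p (u + b) = -1 then (1 : ℝ) else 0) * g 1 (-1) +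
      (if sg p u = -1 ∧ sg p (u + b) = 1 then (1 : ℝ) else 0) * g (-1) 1 +
      (if sg p u = -1 ∧ sg p (u + b) = -1 then (1 : ℝ) else 0) * g (-1) (-1) := by
    intro u
    rcases sg_cases p u with h | h <;> rcases sg_cases p (u + b) with h' | h' <;>
      rw [h, h'] <;> norm_num
  have h2 : ∀ σ τ : ℤ, ∑ u : ZMod p, (if sg p u = σ ∧ sg p (u + b) = τ then (1 : ℝ) else 0) =
      ((univ.filter fun u : ZMod p => sg p u = σ ∧ sg p (u + b) = τ).card : ℝ) := by
    intro σ τ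
    rw [Finset.card_filter]
    push_cast
    rfl
  have h3 : ∀ σ τ : ℤ, (σ = 1 ∨ σ = -1) → (τ = 1 ∨ τ = -1) →
      ((univ.filter fun u : ZMod p => sg p u = σ ∧ sg p (u + b) = τ).card : ℝ) ≤
        ((p : ℝ) + 5) / 4 := by
    intro σ τ hσ hτ
    have h4 := card_pair hp b hb σ τ hσ hτ
    have h5 : (4 : ℝ) * ((univ.filter fun u : ZMod p => sg p u = σ ∧ sg p (u + b) = τ).card : ℝ)
        ≤ p + 5 := by exact_mod_cast h4
    linarith
  simp_rw [h1]
  rw [Finset.sum_add_distrib, Finset.sum_add_distrib, Finset.sum_add_distrib,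
    ← Finset.sum_mul, ← Finset.sum_mul, ← Finset.sum_mul, ← Finset.sum_mul, h2, h2, h2, h2]
  have e1 := mul_le_mul_of_nonneg_right (h3 1 1 (Or.inl rfl) (Or.inl rfl)) h11
  have e2 := mul_le_mul_of_nonneg_right (h3 1 (-1) (Or.inl rfl) (Or.inr rfl)) h12
  have e3 := mul_le_mul_of_nonneg_right (h3 (-1) 1 (Or.inr rfl) (Or.inl rfl)) h21
  have e4 := mul_le_mul_of_nonneg_right (h3 (-1) (-1) (Or.inr rfl) (Or.inr rfl)) h22
  linarith

theorem sum_sg_fun (hp : p ≠ 2) (f : ℤ → ℝ) :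
    ∑ u : ZMod p, f (sg p u) = ((p : ℝ) - 1) / 2 * f 1 + ((p : ℝ) + 1) / 2 * f (-1) := by
  classical
  have h1 : ∀ u : ZMod p, f (sg p u) =
      (if sg p u = 1 then (1 : ℝ) else 0) * f 1 +
      (if sg p u = -1 then (1 : ℝ) else 0) * f (-1) := by
    intro u
    rcases sg_cases p u with h | h <;> rw [h] <;> norm_num
  have h2 : ∀ σ : ℤ, (σ = 1 ∨ σ = -1) →
      ∑ u : ZMod p, (if sg p u = σ then (1 : ℝ) else 0) = ((p : ℝ) - σ) / 2 := by
    intro σ hσ
    have h3 := card_sg hp σ hσ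
    have h4 : (2 : ℝ) * ((univ.filter fun u : ZMod p => sg p u = σ).card : ℝ) = p - σ := by
      exact_mod_cast h3
    have h5 : ∑ u : ZMod p, (if sg p u = σ then (1 : ℝ) else 0) =
        ((univ.filter fun u : ZMod p => sg p u = σ).card : ℝ) := by
      rw [Finset.card_filter]
      push_cast
      rfl
    rw [h5]
    linarith
  simp_rw [h1]
  rw [Finset.sum_add_distrib, ← Finset.sum_mul, ← Finset.sum_mul, h2 1 (Or.inl rfl),
    h2 (-1) (Or.inr rfl)]
  push_cast
  ring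

end

theorem good_zero : Good 0 0 1 (fun _ => 0) := by
  refine ⟨fun v => by norm_num, fun H hH => ?_, fun b H hH H' hH' => ?_⟩
  · interval_cases H
    · simp
    · simp
  · interval_cases H <;> interval_cases H' <;> simp

theorem good_step {m : ℕ} {ε : ℝ} {P : ℕ} [NeZero P] {lam : ZMod P → ℕ} (hε : 0 ≤ ε)
    (hG : Good m ε P lam) (δ : ℝ) (hδ : 0 < δ) :
    ∃ (P' : ℕ) (_ : NeZero P') (lam' : ZMod P' → ℕ), Good (m + 1) (ε + δ) P' lam' := by
  classical
  have hP0 : 0 < P := Nat.pos_of_ne_zero (NeZero.ne P)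
  obtain ⟨n0, hn0⟩ := exists_nat_gt (5 * (1 + ε) / δ)
  obtain ⟨p, hpn, hpp⟩ := Nat.exists_infinite_primes (max (P + 1) (max 3 n0))
  have : Fact p.Prime := ⟨hpp⟩
  have hpP : P < p := lt_of_lt_of_le (Nat.lt_succ_self P) ((le_max_left _ _).trans hpn)
  have hp3 : 3 ≤ p := (le_max_left _ _).trans ((le_max_right _ _).trans hpn)
  have hp2 : p ≠ 2 := by omega
  have hpn0 : n0 ≤ p := (le_max_right _ _).trans ((le_max_right _ _).trans hpn)
  have hpr : 0 < (p : ℝ) := by exact_mod_cast hpp.pos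
  have hPr : 0 < (P : ℝ) := by exact_mod_cast hP0
  have hsmall : 5 * (1 + ε) ≤ δ * p := by
    have h1 : 5 * (1 + ε) / δ < p := hn0.trans_le (by exact_mod_cast hpn0)
    rw [div_lt_iff₀ hδ] at h1
    linarith
  have hcop : Nat.Coprime p P :=
    (Nat.Prime.coprime_iff_not_dvd hpp).2 fun h => absurd (Nat.le_of_dvd hP0 h) (by omega)
  have hNZ : NeZero (p * P) := ⟨Nat.mul_ne_zero hpp.ne_zero (NeZero.ne P)⟩
  let e : ZMod (p * P) ≃+* ZMod p × ZMod P := ZMod.chineseRemainder hcop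
  have h2m : (0 : ℝ) < 2 ^ m := by positivity
  refine ⟨p * P, hNZ, fun x => (if sg p (e x).1 = 1 then 2 ^ m else 0) + lam (e x).2, ?_, ?_, ?_⟩
  · intro x
    have := hG.lt (e x).2
    rw [pow_succ]
    split_ifs <;> omega
  · -- counting
    intro H hH
    have h1 : ((univ.filter fun x : ZMod (p * P) =>
        (if sg p (e x).1 = 1 then 2 ^ m else 0) + lam (e x).2 < H).card : ℝ) =
        ∑ u : ZMod p, ((univ.filter fun v : ZMod P => lam v < hs m H (sg p u)).card : ℝ) := by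
      have h2 : (univ.filter fun x : ZMod (p * P) =>
          (if sg p (e x).1 = 1 then 2 ^ m else 0) + lam (e x).2 < H).card =
          (univ.filter fun w : ZMod p × ZMod P => lam w.2 < hs m H (sg p w.1)).card := by
        refine Finset.card_equiv e.toEquiv fun x => ?_
        simp only [Finset.mem_filter, Finset.mem_univ, true_and]
        exact hs_lt (hG.lt _) (sg_cases p _)
      rw [h2, Finset.card_filter, Fintype.sum_prod_type]
      push_cast
      refine Finset.sum_congr rfl fun u _ => ?_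
      rw [Finset.card_filter]
      push_cast
      rfl
    rw [h1, sum_sg_fun hp2 (fun σ => ((univ.filter fun v : ZMod P => lam v < hs m H σ).card : ℝ))]
    have c1 := abs_le.1 (hG.cnt (hs m H 1) (hs_le hH 1))
    have c2 := abs_le.1 (hG.cnt (hs m H (-1)) (hs_le hH (-1)))
    set C1 : ℝ := ((univ.filter fun v : ZMod P => lam v < hs m H 1).card : ℝ) with hC1
    set C2 : ℝ := ((univ.filter fun v : ZMod P => lam v < hs m H (-1)).card : ℝ) with hC2
    set a1 : ℝ := (hs m H 1 : ℝ) / 2 ^ m with ha1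
    set a2 : ℝ := (hs m H (-1) : ℝ) / 2 ^ m with ha2
    have hsum : a1 + a2 = 2 * (H / 2 ^ (m + 1)) := by
      rw [ha1, ha2, ← add_div, hs_sum, pow_succ]
      field_simp
    have ha1' : 0 ≤ a1 ∧ a1 ≤ 1 := by
      refine ⟨by positivity, ?_⟩
      rw [ha1, div_le_one h2m]
      exact_mod_cast hs_le hH 1
    have ha2' : 0 ≤ a2 ∧ a2 ≤ 1 := by
      refine ⟨by positivity, ?_⟩
      rw [ha2, div_le_one h2m]
      exact_mod_cast hs_le hH (-1)
    have hH2 : (H : ℝ) / 2 ^ (m + 1) = (a1 + a2) / 2 := by rw [hsum]; ring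
    rw [hH2]
    push_cast
    have hp1 : (1 : ℝ) ≤ p := by exact_mod_cast hpp.one_lt.le
    have k1 := mul_le_mul_of_nonneg_left c1.2 (show (0 : ℝ) ≤ (p - 1) / 2 by linarith)
    have k2 := mul_le_mul_of_nonneg_left c1.1 (show (0 : ℝ) ≤ (p - 1) / 2 by linarith)
    have k3 := mul_le_mul_of_nonneg_left c2.2 (show (0 : ℝ) ≤ (p + 1) / 2 by linarith)
    have k4 := mul_le_mul_of_nonneg_left c2.1 (show (0 : ℝ) ≤ (p + 1) / 2 by linarith)
    have k5 : P * (5 * (1 + ε)) ≤ P * (δ * p) := mul_le_mul_of_nonneg_left hsmall hPr.le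
    have k6 : 0 ≤ ε * P := mul_nonneg hε hPr.le
    have k7 : a1 * P ≤ P := by nlinarith [ha1'.2]
    have k8 : 0 ≤ a1 * P := mul_nonneg ha1'.1 hPr.le
    have k9 : a2 * P ≤ P := by nlinarith [ha2'.2]
    have k10 : 0 ≤ a2 * P := mul_nonneg ha2'.1 hPr.le
    rw [abs_le]
    constructor <;> nlinarith
  · -- pairs
    intro b H hH H' hH'
    set b1 : ZMod p := (e b).1 with hb1
    set b2 : ZMod P := (e b).2 with hb2
    have h1 : ((univ.filter fun x : ZMod (p * P) =>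
        ((if sg p (e x).1 = 1 then 2 ^ m else 0) + lam (e x).2 < H ∧
          H' ≤ (if sg p (e (x + b)).1 = 1 then 2 ^ m else 0) + lam (e (x + b)).2)).card : ℝ) =
        ∑ u : ZMod p, ((univ.filter fun v : ZMod P =>
          lam v < hs m H (sg p u) ∧ hs m H' (sg p (u + b1)) ≤ lam (v + b2)).card : ℝ) := by
      have h2 : (univ.filter fun x : ZMod (p * P) =>
          ((if sg p (e x).1 = 1 then 2 ^ m else 0) + lam (e x).2 < H ∧
          H' ≤ (if sg p (e (x + b)).1 = 1 then 2 ^ m else 0) + lam (e (x + b)).2)).card =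
          (univ.filter fun w : ZMod p × ZMod P => lam w.2 < hs m H (sg p w.1) ∧
            hs m H' (sg p (w.1 + b1)) ≤ lam (w.2 + b2)).card := by
        refine Finset.card_equiv e.toEquiv fun x => ?_
        simp only [Finset.mem_filter, Finset.mem_univ, true_and]
        rw [map_add, Prod.fst_add, Prod.snd_add, hs_lt (hG.lt _) (sg_cases p _),
          hs_ge (hG.lt _) (sg_cases p _)]
        rfl
      rw [h2, Finset.card_filter, Fintype.sum_prod_type]
      push_cast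
      refine Finset.sum_congr rfl fun u _ => ?_
      rw [Finset.card_filter]
      push_cast
      rfl
    rw [h1]
    let a : ℤ → ℝ := fun σ => (hs m H σ : ℝ) / 2 ^ m
    let a' : ℤ → ℝ := fun σ => (hs m H' σ : ℝ) / 2 ^ m
    let g : ℤ → ℤ → ℝ := fun σ τ => (a σ * (1 - a' τ) + ε) * P
    have ha : ∀ σ, 0 ≤ a σ ∧ a σ ≤ 1 := fun σ =>
      ⟨by positivity, (div_le_one h2m).2 (by exact_mod_cast hs_le hH σ)⟩
    have ha' : ∀ σ, 0 ≤ a' σ ∧ a' σ ≤ 1 := fun σ =>
      ⟨by positivity, (div_le_one h2m).2 (by exact_mod_cast hs_le hH' σ)⟩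
    have hg0 : ∀ σ τ, 0 ≤ g σ τ := fun σ τ =>
      mul_nonneg (add_nonneg (mul_nonneg (ha σ).1 (sub_nonneg.2 (ha' τ).2)) hε) hPr.le
    have h3 : ∑ u : ZMod p, ((univ.filter fun v : ZMod P =>
          lam v < hs m H (sg p u) ∧ hs m H' (sg p (u + b1)) ≤ lam (v + b2)).card : ℝ) ≤
        ∑ u : ZMod p, g (sg p u) (sg p (u + b1)) :=
      Finset.sum_le_sum fun u _ => hG.pair b2 _ (hs_le hH _) _ (hs_le hH' _)
    refine h3.trans ?_
    have hsum : a 1 + a (-1) = 2 * (H / 2 ^ (m + 1)) := by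
      change (hs m H 1 : ℝ) / 2 ^ m + (hs m H (-1) : ℝ) / 2 ^ m = _
      rw [← add_div, hs_sum, pow_succ]
      field_simp
    have hsum' : a' 1 + a' (-1) = 2 * (H' / 2 ^ (m + 1)) := by
      change (hs m H' 1 : ℝ) / 2 ^ m + (hs m H' (-1) : ℝ) / 2 ^ m = _
      rw [← add_div, hs_sum, pow_succ]
      field_simp
    have hH2 : (H : ℝ) / 2 ^ (m + 1) = (a 1 + a (-1)) / 2 := by rw [hsum]; ring
    have hH2' : (H' : ℝ) / 2 ^ (m + 1) = (a' 1 + a' (-1)) / 2 := by rw [hsum']; ring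
    have hp1 : (1 : ℝ) ≤ p := by exact_mod_cast hpp.one_lt.le
    have k5 : P * (5 * (1 + ε)) ≤ P * (δ * p) := mul_le_mul_of_nonneg_left hsmall hPr.le
    have hmain0 : 0 ≤ (a 1 + a (-1)) / 2 * (1 - (a' 1 + a' (-1)) / 2) ∧
        (a 1 + a (-1)) / 2 * (1 - (a' 1 + a' (-1)) / 2) ≤ 1 := by
      have x1 := ha 1; have x2 := ha (-1); have x3 := ha' 1; have x4 := ha' (-1)
      constructor
      · exact mul_nonneg (by linarith) (by linarith)
      · nlinarith
    rw [hH2, hH2']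
    push_cast
    by_cases hb0 : b1 = 0
    · -- the shift is divisible by `p`
      have h4 : ∑ u : ZMod p, g (sg p u) (sg p (u + b1)) =
          ((p : ℝ) - 1) / 2 * g 1 1 + ((p : ℝ) + 1) / 2 * g (-1) (-1) := by
        rw [hb0]
        simp_rw [add_zero]
        exact sum_sg_fun hp2 (fun σ => g σ σ)
      rw [h4]
      have h5 : ((p : ℝ) - 1) / 2 * g 1 1 + ((p : ℝ) + 1) / 2 * g (-1) (-1) ≤
          ((p : ℝ) + 1) / 2 * (g 1 1 + g (-1) (-1)) := by
        have := hg0 1 1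
        nlinarith
      refine h5.trans ?_
      have h6 : g 1 1 + g (-1) (-1) ≤
          2 * ((a 1 + a (-1)) / 2 * (1 - (a' 1 + a' (-1)) / 2) + ε) * P := by
        change (a 1 * (1 - a' 1) + ε) * P + (a (-1) * (1 - a' (-1)) + ε) * P ≤ _
        have h7 : a 1 ≤ a (-1) := by
          change (hs m H 1 : ℝ) / 2 ^ m ≤ (hs m H (-1) : ℝ) / 2 ^ m
          gcongr
          exact_mod_cast hs_anti m H hH
        have h8 : a' 1 ≤ a' (-1) := by
          change (hs m H' 1 : ℝ) / 2 ^ m ≤ (hs m H' (-1) : ℝ) / 2 ^ m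
          gcongr
          exact_mod_cast hs_anti m H' hH'
        have h9 : 0 ≤ (a (-1) - a 1) * (a' (-1) - a' 1) :=
          mul_nonneg (sub_nonneg.2 h7) (sub_nonneg.2 h8)
        have h10 : a 1 * (1 - a' 1) + ε + (a (-1) * (1 - a' (-1)) + ε) ≤
            2 * ((a 1 + a (-1)) / 2 * (1 - (a' 1 + a' (-1)) / 2) + ε) := by nlinarith
        have := mul_le_mul_of_nonneg_right h10 hPr.le
        linarith
      have h11 := mul_le_mul_of_nonneg_left h6 (show (0 : ℝ) ≤ (p + 1) / 2 by linarith)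
      refine h11.trans ?_
      set W := (a 1 + a (-1)) / 2 * (1 - (a' 1 + a' (-1)) / 2) with hW
      have h12 : W * P ≤ P := by nlinarith [hmain0.2]
      have h13 : 0 ≤ ε * P := mul_nonneg hε hPr.le
      nlinarith
    · have h4 := sum_pair_le hp2 b1 hb0 g (hg0 _ _) (hg0 _ _) (hg0 _ _) (hg0 _ _)
      refine h4.trans ?_
      have h5 : g 1 1 + g 1 (-1) + g (-1) 1 + g (-1) (-1) =
          4 * ((a 1 + a (-1)) / 2 * (1 - (a' 1 + a' (-1)) / 2) + ε) * P := by
        change (a 1 * (1 - a' 1) + ε) * P + (a 1 * (1 - a' (-1)) + ε) * P +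
          (a (-1) * (1 - a' 1) + ε) * P + (a (-1) * (1 - a' (-1)) + ε) * P = _
        ring
      rw [h5]
      set W := (a 1 + a (-1)) / 2 * (1 - (a' 1 + a' (-1)) / 2) with hW
      have h12 : W * P ≤ P := by nlinarith [hmain0.2]
      have h13 : 0 ≤ ε * P := mul_nonneg hε hPr.le
      nlinarith

theorem exists_good (m : ℕ) (ε : ℝ) (hε : 0 < ε) :
    ∃ (P : ℕ) (_ : NeZero P) (lam : ZMod P → ℕ), Good m ε P lam := by
  induction m generalizing ε with
  | zero =>
    refine ⟨1, inferInstance, fun _ => 0, ?_⟩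
    have h := good_zero
    exact ⟨h.lt, fun H hH => (h.cnt H hH).trans (by simpa using hε.le),
      fun b H hH H' hH' => (h.pair b H hH H' hH').trans (by simp; exact hε.le)⟩
  | succ m ih =>
    obtain ⟨P, hP, lam, hG⟩ := ih (ε / 2) (half_pos hε)
    obtain ⟨P', hP', lam', hG'⟩ := good_step (half_pos hε).le hG (ε / 2) (half_pos hε)
    rw [add_halves] at hG'
    exact ⟨P', hP', lam', hG'⟩

end Pool.Agent.Work.MP_62db8e_nt.Up
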