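import Mathlib
import Pool.Agent.Work.MP_62db8e_nt.Up.Pat

/-!
# Counting in windows, and the sets built from a level function
-/

set_option autoImplicit false

namespace Pool.Agent.Work.MP_62db8e_nt.Up

open Finset

section window

variable {P : ℕ} [NeZero P]

theorem win_one (Q : ZMod P → Prop) [DecidablePred Q] (a : ℤ) :
    ((Finset.Ico a (a + P)).filter fun x : ℤ => Q (x : ZMod P)).card =
      (univ.filter fun v : ZMod P => Q v).card := by
  have hP : 0 < (P : ℤ) := by exact_mod_cast Nat.pos_of_ne_zero (NeZero.ne P)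
  refine Finset.card_bij (fun x _ => (x : ZMod P)) ?_ ?_ ?_
  · intro x hx
    exact Finset.mem_filter.2 ⟨Finset.mem_univ _, (Finset.mem_filter.1 hx).2⟩
  · intro x hx y hy hxy
    have hx1 := Finset.mem_Ico.1 (Finset.mem_filter.1 hx).1
    have hy1 := Finset.mem_Ico.1 (Finset.mem_filter.1 hy).1
    rw [ZMod.intCast_eq_intCast_iff_dvd_sub] at hxy
    have h0 : y - x = 0 := by
      apply Int.eq_zero_of_abs_lt_dvd hxy
      rw [abs_lt]
      constructor <;> omega
    omega
  · intro v hv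
    have hv1 := (Finset.mem_filter.1 hv).2
    refine ⟨a + ((v - (a : ZMod P)).val : ℤ), ?_, ?_⟩
    · have h1 : (((a + ((v - (a : ZMod P)).val : ℤ) : ℤ)) : ZMod P) = v := by
        push_cast
        rw [ZMod.natCast_zmod_val]
        ring
      refine Finset.mem_filter.2 ⟨Finset.mem_Ico.2 ⟨by omega, ?_⟩, ?_⟩
      · have := ZMod.val_lt (v - (a : ZMod P))
        omega
      · rw [h1]; exact hv1
    · push_cast
      rw [ZMod.natCast_zmod_val]
      ring

theorem win_mul (Q : ZMod P → Prop) [DecidablePred Q] (a : ℤ) (T : ℕ) :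
    ((Finset.Ico a (a + T * P)).filter fun x : ℤ => Q (x : ZMod P)).card =
      T * (univ.filter fun v : ZMod P => Q v).card := by
  induction T with
  | zero => simp
  | succ T ih =>
    have hP : 0 ≤ (P : ℤ) := Int.natCast_nonneg P
    have h1 : Finset.Ico a (a + ((T + 1 : ℕ) : ℤ) * P) =
        Finset.Ico a (a + T * P) ∪ Finset.Ico (a + T * P) (a + T * P + P) := by
      rw [Finset.Ico_union_Ico_eq_Ico]
      · push_cast; ring_nf
      · have : 0 ≤ (T : ℤ) * P := by positivity
        omega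
      · omega
    rw [h1, Finset.filter_union, Finset.card_union_of_disjoint, ih, win_one]
    · ring
    · refine Finset.disjoint_filter_filter ?_
      exact Finset.Ico_disjoint_Ico_consecutive _ _ _

theorem win_le (Q : ZMod P → Prop) [DecidablePred Q] (a : ℤ) (l : ℕ) :
    (((Finset.Ico a (a + l)).filter fun x : ℤ => Q (x : ZMod P)).card : ℝ) ≤
      ((l : ℝ) / P + 1) * (univ.filter fun v : ZMod P => Q v).card := by
  have hP : 0 < P := Nat.pos_of_ne_zero (NeZero.ne P)
  have hPr : (0 : ℝ) < P := by exact_mod_cast hP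
  have h1 : ((Finset.Ico a (a + l)).filter fun x : ℤ => Q (x : ZMod P)).card ≤
      (l / P + 1) * (univ.filter fun v : ZMod P => Q v).card := by
    rw [← win_mul Q a (l / P + 1)]
    apply Finset.card_le_card
    apply Finset.filter_subset_filter
    apply Finset.Ico_subset_Ico le_rfl
    have h2 : l ≤ (l / P + 1) * P := by
      have := Nat.lt_div_mul_add (a := l) hP
      nlinarith
    have h3 : (l : ℤ) ≤ ((l / P + 1 : ℕ) : ℤ) * P := by exact_mod_cast h2
    omega
  have h2 : ((l / P + 1 : ℕ) : ℝ) ≤ (l : ℝ) / P + 1 := by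
    push_cast
    have : ((l / P : ℕ) : ℝ) ≤ (l : ℝ) / P := Nat.cast_div_le
    linarith
  calc (((Finset.Ico a (a + l)).filter fun x : ℤ => Q (x : ZMod P)).card : ℝ)
      ≤ ((l / P + 1 : ℕ) : ℝ) * (univ.filter fun v : ZMod P => Q v).card := by exact_mod_cast h1
    _ ≤ _ := by gcongr

end window

/-- number of `x ∈ A` with `x - k ∈ {1, …, 2n} ∖ A` -/
def ov (n : ℕ) (A : Finset ℤ) (k : ℤ) : ℕ :=
  (A.filter fun x => (1 ≤ x - k ∧ x - k ≤ 2 * n) ∧ x - k ∉ A).card

/-- adjusting the cardinality -/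
theorem fix_card (n : ℕ) (A : Finset ℤ) (hA : A ⊆ Finset.Icc 1 (2 * n)) (d : ℕ)
    (h1 : A.card ≤ n + d) (h2 : n ≤ A.card + d) :
    ∃ A' : Finset ℤ, A' ⊆ Finset.Icc 1 (2 * n) ∧ A'.card = n ∧ ∀ k, ov n A' k ≤ ov n A k + d := by
  classical
  have hcard : (Finset.Icc (1 : ℤ) (2 * n)).card = 2 * n := by
    rw [Int.card_Icc]; omega
  rcases le_total n A.card with h | h
  · obtain ⟨A', hA', hc⟩ := Finset.exists_subset_card_eq h
    refine ⟨A', hA'.trans hA, hc, fun k => ?_⟩
    have hsub : (A'.filter fun x => (1 ≤ x - k ∧ x - k ≤ 2 * n) ∧ x - k ∉ A') ⊆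
        (A.filter fun x => (1 ≤ x - k ∧ x - k ≤ 2 * n) ∧ x - k ∉ A) ∪
          ((A \ A').image fun y => y + k) := by
      intro x hx
      obtain ⟨hx1, hx2, hx3⟩ := Finset.mem_filter.1 hx
      by_cases hxA : x - k ∈ A
      · refine Finset.mem_union_right _ (Finset.mem_image.2 ⟨x - k, Finset.mem_sdiff.2 ⟨hxA, hx3⟩, ?_⟩)
        ring
      · exact Finset.mem_union_left _ (Finset.mem_filter.2 ⟨hA' hx1, hx2, hxA⟩)
    refine (Finset.card_le_card hsub).trans ((Finset.card_union_le _ _).trans ?_)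
    refine Nat.add_le_add le_rfl (Finset.card_image_le.trans ?_)
    rw [Finset.card_sdiff_of_subset hA']
    omega
  · obtain ⟨A', hA', hA'2, hc⟩ := Finset.exists_subsuperset_card_eq hA h (by omega)
    refine ⟨A', hA'2, hc, fun k => ?_⟩
    have hsub : (A'.filter fun x => (1 ≤ x - k ∧ x - k ≤ 2 * n) ∧ x - k ∉ A') ⊆
        (A.filter fun x => (1 ≤ x - k ∧ x - k ≤ 2 * n) ∧ x - k ∉ A) ∪ (A' \ A) := by
      intro x hx
      obtain ⟨hx1, hx2, hx3⟩ := Finset.mem_filter.1 hx
      by_cases hxA : x ∈ A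
      · exact Finset.mem_union_left _ (Finset.mem_filter.2 ⟨hxA, hx2, fun h => hx3 (hA' h)⟩)
      · exact Finset.mem_union_right _ (Finset.mem_sdiff.2 ⟨hx1, hxA⟩)
    refine (Finset.card_le_card hsub).trans ((Finset.card_union_le _ _).trans ?_)
    refine Nat.add_le_add le_rfl ?_
    rw [Finset.card_sdiff_of_subset hA']
    omega

/-- adding two elements -/
theorem ext_one (n : ℕ) (A : Finset ℤ) (hA : A ⊆ Finset.Icc 1 (2 * n)) (hc : A.card = n) :
    ∃ A' : Finset ℤ, A' ⊆ Finset.Icc 1 (2 * ((n + 1 : ℕ) : ℤ)) ∧ A'.card = n + 1 ∧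
      ∀ k, ov (n + 1) A' k ≤ ov n A k + 2 := by
  classical
  have hnot : (2 * n + 1 : ℤ) ∉ A := by
    intro h
    have := (Finset.mem_Icc.1 (hA h)).2
    omega
  refine ⟨insert (2 * n + 1 : ℤ) A, ?_, ?_, fun k => ?_⟩
  · intro x hx
    rw [Finset.mem_Icc]
    push_cast
    rcases Finset.mem_insert.1 hx with rfl | hx
    · constructor <;> omega
    · have := Finset.mem_Icc.1 (hA hx)
      constructor <;> omega
  · rw [Finset.card_insert_of_notMem hnot, hc]
  · have hsub : ((insert (2 * n + 1 : ℤ) A).filter fun x =>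
        (1 ≤ x - k ∧ x - k ≤ 2 * ((n + 1 : ℕ) : ℤ)) ∧ x - k ∉ insert (2 * n + 1 : ℤ) A) ⊆
        (A.filter fun x => (1 ≤ x - k ∧ x - k ≤ 2 * n) ∧ x - k ∉ A) ∪
          {(2 * n + 1 : ℤ), 2 * n + 2 + k} := by
      intro x hx
      obtain ⟨hx1, hx2, hx3⟩ := Finset.mem_filter.1 hx
      rw [Finset.mem_insert, not_or] at hx3
      push_cast at hx2
      by_cases h1 : x = 2 * n + 1
      · apply Finset.mem_union_right
        rw [h1]; simp
      · by_cases h2 : x - k = 2 * n + 2
        · apply Finset.mem_union_right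
          have : x = 2 * n + 2 + k := by omega
          rw [this]; simp
        · apply Finset.mem_union_left
          have hxA : x ∈ A := by
            rcases Finset.mem_insert.1 hx1 with h | h
            · exact absurd h h1
            · exact h
          refine Finset.mem_filter.2 ⟨hxA, ⟨hx2.1, ?_⟩, hx3.2⟩
          have := hx3.1
          omega
    refine (Finset.card_le_card hsub).trans ((Finset.card_union_le _ _).trans ?_)
    exact Nat.add_le_add le_rfl (Finset.card_le_two)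

theorem ext_many (n : ℕ) (A : Finset ℤ) (hA : A ⊆ Finset.Icc 1 (2 * n)) (hc : A.card = n) (t : ℕ) :
    ∃ A' : Finset ℤ, A' ⊆ Finset.Icc 1 (2 * ((n + t : ℕ) : ℤ)) ∧ A'.card = n + t ∧
      ∀ k, ov (n + t) A' k ≤ ov n A k + 2 * t := by
  induction t with
  | zero => exact ⟨A, hA, hc, fun k => le_rfl⟩
  | succ t ih =>
    obtain ⟨A', h1, h2, h3⟩ := ih
    obtain ⟨A'', h4, h5, h6⟩ := ext_one (n + t) A' h1 h2
    refine ⟨A'', h4, h5, fun k => ?_⟩
    have := h6 k
    have := h3 k
    show ov (n + t + 1) A'' k ≤ _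
    omega

end Pool.Agent.Work.MP_62db8e_nt.Up
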