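import Mathlib
import Pool.Agent.Work.MP_62db8e_nt.Up.Win

/-!
# From step functions to sets
-/

set_option autoImplicit false

namespace Pool.Agent.Work.MP_62db8e_nt.Up

open Finset

/-- the heights `u c`, `c < N`, extended by the full height `2 ^ m` -/
def Ut (m N : ℕ) (u : ℕ → ℕ) (c : ℤ) : ℕ := if 0 ≤ c ∧ c < N then u c.toNat else 2 ^ m

theorem ediv_eq {a b L : ℤ} (hL : 0 < L) (h1 : b * L ≤ a) (h2 : a < (b + 1) * L) : a / L = b :=
  le_antisymm (Int.lt_add_one_iff.1 (Int.ediv_lt_of_lt_mul hL h2)) (Int.le_ediv_of_mul_le hL h1)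

theorem construct {m P : ℕ} [NeZero P] {ε : ℝ} {lam : ZMod P → ℕ} (hG : Good m ε P lam)
    (_hε : 0 ≤ ε) (N₂ : ℕ) (hN : 0 < N₂) (u : ℕ → ℕ) (hu : ∀ c, u c ≤ 2 ^ m)
    (hsum : ∑ c ∈ range (2 * N₂), u c = N₂ * 2 ^ m) (V : ℝ)
    (hV : ∀ q : ℤ, ∑ c ∈ range (2 * N₂),
      ((u c : ℝ) / 2 ^ m) * (1 - (Ut m (2 * N₂) u (c - q) : ℝ) / 2 ^ m) ≤ V)
    (T : ℕ) (hT : 0 < T) :
    ∃ A : Finset ℤ, A ⊆ Finset.Icc 1 (2 * ((N₂ * (P * T) : ℕ) : ℤ)) ∧
      |(A.card : ℝ) - (N₂ * (P * T) : ℕ)| ≤ 2 * ε * (N₂ * (P * T) : ℕ) ∧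
      ∀ k, (ov (N₂ * (P * T)) A k : ℝ) ≤
        (1 + 2 / T) * (V / N₂ + 2 * ε) * (N₂ * (P * T) : ℕ) := by
  classical
  have hP : 0 < P := Nat.pos_of_ne_zero (NeZero.ne P)
  have hPr : (0 : ℝ) < P := by exact_mod_cast hP
  have hTr : (0 : ℝ) < T := by exact_mod_cast hT
  have hNr : (0 : ℝ) < N₂ := by exact_mod_cast hN
  set n : ℕ := N₂ * (P * T) with hn
  set L : ℤ := ((P * T : ℕ) : ℤ) with hL
  have hL0 : 0 < L := by rw [hL]; exact_mod_cast Nat.mul_pos hP hT
  have hnL : (2 * (n : ℤ)) = (2 * N₂ : ℕ) * L := by rw [hn, hL]; push_cast; ring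
  have h2m : (0 : ℝ) < 2 ^ m := by positivity
  let cell : ℤ → ℕ := fun x => ((x - 1) / L).toNat
  let S0 : Finset ℤ := Finset.Icc 1 (2 * (n : ℤ))
  -- positions and cells
  have hcell : ∀ x ∈ S0, cell x < 2 * N₂ ∧ ((cell x : ℕ) : ℤ) = (x - 1) / L ∧
      ((cell x : ℕ) : ℤ) * L + 1 ≤ x ∧ x < ((cell x : ℕ) : ℤ) * L + 1 + L := by
    intro x hx
    obtain ⟨h1, h2⟩ := Finset.mem_Icc.1 hx
    have h3 : 0 ≤ (x - 1) / L := Int.ediv_nonneg (by omega) hL0.le
    have h4 : ((cell x : ℕ) : ℤ) = (x - 1) / L := Int.toNat_of_nonneg h3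
    have h5 : (x - 1) / L < (2 * N₂ : ℕ) := Int.ediv_lt_of_lt_mul hL0 (by rw [← hnL]; omega)
    have h6 : (x - 1) / L * L ≤ x - 1 := Int.ediv_mul_le _ hL0.ne'
    have h7 : x - 1 < (x - 1) / L * L + L := Int.lt_ediv_add_one_mul_self (x - 1) hL0 |>.trans_le
      (by rw [add_mul, one_mul])
    refine ⟨by omega, h4, ?_, ?_⟩
    · rw [h4]; omega
    · rw [h4]; omega
  let A : Finset ℤ := S0.filter fun x => lam (x : ZMod P) < u (cell x)
  refine ⟨A, Finset.filter_subset _ _, ?_, ?_⟩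
  · -- cardinality
    have h1 : A.card = ∑ c ∈ range (2 * N₂), (A.filter fun x => cell x = c).card :=
      Finset.card_eq_sum_card_fiberwise fun x hx =>
        Finset.mem_coe.2 (Finset.mem_range.2 (hcell x (Finset.mem_filter.1 hx).1).1)
    have h2 : ∀ c ∈ range (2 * N₂), (A.filter fun x => cell x = c).card =
        T * (univ.filter fun v : ZMod P => lam v < u c).card := by
      intro c hc
      rw [← win_mul (fun v => lam v < u c) ((c : ℤ) * L + 1) T]
      congr 1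
      ext x
      simp only [A, S0, Finset.mem_filter, Finset.mem_Ico, Finset.mem_Icc]
      have hLT : (T : ℤ) * P = L := by rw [hL]; push_cast; ring
      rw [hLT]
      constructor
      · rintro ⟨⟨hx, h3⟩, rfl⟩
        have h4 := hcell x (Finset.mem_Icc.2 hx)
        exact ⟨⟨h4.2.2.1, h4.2.2.2⟩, h3⟩
      · rintro ⟨⟨h3, h4⟩, h5⟩
        have hc' := Finset.mem_range.1 hc
        have hx : 1 ≤ x ∧ x ≤ 2 * (n : ℤ) := by
          have h6 : 0 ≤ (c : ℤ) * L := by positivity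
          have h7 : (c : ℤ) * L + L ≤ ((2 * N₂ : ℕ) : ℤ) * L := by
            have : ((c : ℤ) + 1) ≤ ((2 * N₂ : ℕ) : ℤ) := by exact_mod_cast hc'
            nlinarith
          rw [hnL]
          constructor <;> omega
        have h8 : (x - 1) / L = c := ediv_eq hL0 (by omega) (by rw [add_mul, one_mul]; omega)
        have h9 : cell x = c := by
          change ((x - 1) / L).toNat = c
          rw [h8]; simp
        rw [h9]
        exact ⟨⟨hx, h5⟩, rfl⟩
    have h3 : (A.card : ℝ) = ∑ c ∈ range (2 * N₂),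
        (T : ℝ) * ((univ.filter fun v : ZMod P => lam v < u c).card : ℝ) := by
      rw [h1, Finset.sum_congr rfl h2]
      push_cast
      rfl
    have h4 : (n : ℝ) = ∑ c ∈ range (2 * N₂), (T : ℝ) * (((u c : ℝ) / 2 ^ m) * P) := by
      rw [← Finset.mul_sum, ← Finset.sum_mul, ← Finset.sum_div]
      have h5 : (∑ c ∈ range (2 * N₂), (u c : ℝ)) = N₂ * 2 ^ m := by exact_mod_cast hsum
      rw [h5, hn]
      push_cast
      field_simp
    rw [h3, h4, ← Finset.sum_sub_distrib]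
    refine (Finset.abs_sum_le_sum_abs _ _).trans ?_
    have h5 : ∀ c ∈ range (2 * N₂), |(T : ℝ) * ((univ.filter fun v : ZMod P => lam v < u c).card : ℝ)
        - T * (((u c : ℝ) / 2 ^ m) * P)| ≤ T * (ε * P) := by
      intro c _
      rw [← mul_sub, abs_mul, abs_of_pos hTr]
      exact mul_le_mul_of_nonneg_left (hG.cnt _ (hu c)) hTr.le
    refine (Finset.sum_le_sum h5).trans ?_
    rw [← h4, Finset.sum_const, Finset.card_range, nsmul_eq_mul, hn]
    push_cast
    apply le_of_eq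
    ring
  · -- overlaps
    intro k
    set q : ℤ := k / L with hq
    set r : ℤ := k % L with hr
    have hr0 : 0 ≤ r := Int.emod_nonneg _ hL0.ne'
    have hr1 : r < L := Int.emod_lt_of_pos _ hL0
    have hk : k = q * L + r := by rw [hq, hr]; exact (Int.ediv_mul_add_emod k L).symm
    let S1 : Finset ℤ := S0.filter fun x => lam (x : ZMod P) < u (cell x) ∧
      Ut m (2 * N₂) u ((x - k - 1) / L) ≤ lam ((x : ZMod P) + ((-k : ℤ) : ZMod P))
    have hS1 : ov n A k ≤ S1.card := by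
      apply Finset.card_le_card
      intro x hx
      obtain ⟨hxA, ⟨h1, h2⟩, h3⟩ := Finset.mem_filter.1 hx
      obtain ⟨hx0, hxl⟩ := Finset.mem_filter.1 hxA
      refine Finset.mem_filter.2 ⟨hx0, hxl, ?_⟩
      have hmem : x - k ∈ S0 := Finset.mem_Icc.2 ⟨h1, h2⟩
      have h4 : ¬ lam ((x - k : ℤ) : ZMod P) < u (cell (x - k)) := fun h =>
        h3 (Finset.mem_filter.2 ⟨hmem, h⟩)
      have h5 := hcell _ hmem
      have h6 : ((x - k : ℤ) : ZMod P) = (x : ZMod P) + ((-k : ℤ) : ZMod P) := by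
        push_cast; ring
      rw [h6] at h4
      have h7 : Ut m (2 * N₂) u ((x - k - 1) / L) = u (cell (x - k)) := by
        unfold Ut
        rw [← h5.2.1, if_pos ⟨by positivity, by exact_mod_cast h5.1⟩, Int.toNat_natCast]
      rw [h7]
      exact not_lt.1 h4
    have h1 : S1.card = ∑ c ∈ range (2 * N₂), (S1.filter fun x => cell x = c).card :=
      Finset.card_eq_sum_card_fiberwise fun x hx =>
        Finset.mem_coe.2 (Finset.mem_range.2 (hcell x (Finset.mem_filter.1 hx).1).1)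
    obtain ⟨r', hr'⟩ := Int.eq_ofNat_of_zero_le hr0
    obtain ⟨l', hl'⟩ := Int.eq_ofNat_of_zero_le (show 0 ≤ L - r by omega)
    let w : ℕ → ℤ → ℝ := fun c c' =>
      ((u c : ℝ) / 2 ^ m) * (1 - (Ut m (2 * N₂) u c' : ℝ) / 2 ^ m)
    have hUt : ∀ c', Ut m (2 * N₂) u c' ≤ 2 ^ m := by
      intro c'
      unfold Ut
      split_ifs
      · exact hu _
      · exact le_rfl
    have hwin : ∀ (c : ℕ) (c' a : ℤ) (l : ℕ),
        (((Finset.Ico a (a + l)).filter fun x : ℤ => lam (x : ZMod P) < u c ∧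
          Ut m (2 * N₂) u c' ≤ lam ((x : ZMod P) + ((-k : ℤ) : ZMod P))).card : ℝ) ≤
          ((l : ℝ) + P) * (w c c' + ε) := by
      intro c c' a l
      have h2 := win_le (fun v : ZMod P => lam v < u c ∧
        Ut m (2 * N₂) u c' ≤ lam (v + ((-k : ℤ) : ZMod P))) a l
      have h3 := hG.pair ((-k : ℤ) : ZMod P) (u c) (hu c) (Ut m (2 * N₂) u c') (hUt c')
      refine h2.trans ?_
      have h4 : (0 : ℝ) ≤ (l : ℝ) / P + 1 := by positivity
      refine (mul_le_mul_of_nonneg_left h3 h4).trans ?_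
      apply le_of_eq
      change ((l : ℝ) / P + 1) * ((w c c' + ε) * P) = _
      field_simp
    have h2 : ∀ c ∈ range (2 * N₂), ((S1.filter fun x => cell x = c).card : ℝ) ≤
        ((r' : ℝ) + P) * (w c (c - (q + 1)) + ε) + ((l' : ℝ) + P) * (w c (c - q) + ε) := by
      intro c _
      have hsub : (S1.filter fun x => cell x = c) ⊆
          ((Finset.Ico ((c : ℤ) * L + 1) ((c : ℤ) * L + 1 + r')).filter fun x : ℤ =>
            lam (x : ZMod P) < u c ∧
            Ut m (2 * N₂) u (c - (q + 1)) ≤ lam ((x : ZMod P) + ((-k : ℤ) : ZMod P))) ∪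
          ((Finset.Ico ((c : ℤ) * L + 1 + r') ((c : ℤ) * L + 1 + r' + l')).filter fun x : ℤ =>
            lam (x : ZMod P) < u c ∧
            Ut m (2 * N₂) u (c - q) ≤ lam ((x : ZMod P) + ((-k : ℤ) : ZMod P))) := by
        intro x hx
        obtain ⟨hx1, rfl⟩ := Finset.mem_filter.1 hx
        obtain ⟨hx0, h3, h4⟩ := Finset.mem_filter.1 hx1
        obtain ⟨_, h5, h6, h7⟩ := hcell x hx0
        set c : ℤ := ((cell x : ℕ) : ℤ) with hc
        by_cases h8 : x < c * L + 1 + r'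
        · have h9 : (x - k - 1) / L = c - (q + 1) := by
            apply ediv_eq hL0
            · have : (c - (q + 1)) * L = c * L - q * L - L := by ring
              rw [this, hk]; omega
            · have : (c - (q + 1) + 1) * L = c * L - q * L := by ring
              rw [this, hk]; omega
          rw [h9] at h4
          exact Finset.mem_union_left _ (Finset.mem_filter.2 ⟨Finset.mem_Ico.2 ⟨h6, h8⟩, h3, h4⟩)
        · have h9 : (x - k - 1) / L = c - q := by
            apply ediv_eq hL0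
            · have : (c - q) * L = c * L - q * L := by ring
              rw [this, hk]; omega
            · have : (c - q + 1) * L = c * L - q * L + L := by ring
              rw [this, hk]; omega
          rw [h9] at h4
          refine Finset.mem_union_right _ (Finset.mem_filter.2 ⟨Finset.mem_Ico.2 ⟨by omega, ?_⟩,
            h3, h4⟩)
          have : (r' : ℤ) + l' = L := by rw [← hr', ← hl']; ring
          omega
      have h3 := (Finset.card_le_card hsub).trans (Finset.card_union_le _ _)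
      have h4 := hwin c (c - (q + 1)) ((c : ℤ) * L + 1) r'
      have h5 := hwin c (c - q) ((c : ℤ) * L + 1 + r') l'
      have h6 := (Nat.cast_le (α := ℝ)).2 h3
      rw [Nat.cast_add] at h6
      linarith
    have h3 : (ov n A k : ℝ) ≤ ∑ c ∈ range (2 * N₂),
        (((r' : ℝ) + P) * (w c (c - (q + 1)) + ε) + ((l' : ℝ) + P) * (w c (c - q) + ε)) := by
      have h4 : (ov n A k : ℝ) ≤ (S1.card : ℝ) := by exact_mod_cast hS1
      refine h4.trans ?_
      rw [h1]
      push_cast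
      exact Finset.sum_le_sum h2
    have hsumS : ∀ q' : ℤ, ∑ c ∈ range (2 * N₂), (w c (c - q') + ε) ≤ V + 2 * N₂ * ε := by
      intro q'
      rw [Finset.sum_add_distrib, Finset.sum_const, Finset.card_range, nsmul_eq_mul]
      have := hV q'
      push_cast
      change (∑ c ∈ range (2 * N₂), ((u c : ℝ) / 2 ^ m) *
        (1 - (Ut m (2 * N₂) u (c - q') : ℝ) / 2 ^ m)) + _ ≤ _
      linarith
    rw [Finset.sum_add_distrib, ← Finset.mul_sum, ← Finset.mul_sum] at h3
    have hrP : (0 : ℝ) ≤ (r' : ℝ) + P := by positivity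
    have hlP : (0 : ℝ) ≤ (l' : ℝ) + P := by positivity
    have h4 := mul_le_mul_of_nonneg_left (hsumS (q + 1)) hrP
    have h5 := mul_le_mul_of_nonneg_left (hsumS q) hlP
    have hrl : (r' : ℝ) + l' = P * T := by
      have h6 : (r' : ℤ) + l' = L := by rw [← hr', ← hl']; ring
      rw [hL] at h6
      have h7 : r' + l' = P * T := by exact_mod_cast h6
      exact_mod_cast h7
    refine (h3.trans (add_le_add h4 h5)).trans (le_of_eq ?_)
    rw [← add_mul]
    have h8 : (r' : ℝ) + P + (l' + P) = P * T + 2 * P := by rw [← hrl]; ring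
    rw [h8, hn]
    push_cast
    field_simp

theorem eventually_sets (m N₂ : ℕ) (hN : 0 < N₂) (u : ℕ → ℕ) (hu : ∀ c, u c ≤ 2 ^ m)
    (hsum : ∑ c ∈ range (2 * N₂), u c = N₂ * 2 ^ m) (V : ℝ)
    (hV : ∀ q : ℤ, ∑ c ∈ range (2 * N₂),
      ((u c : ℝ) / 2 ^ m) * (1 - (Ut m (2 * N₂) u (c - q) : ℝ) / 2 ^ m) ≤ V)
    (s : ℝ) (hs : V / N₂ < s) :
    ∃ n₀ : ℕ, ∀ n ≥ n₀, ∃ A : Finset ℤ, A ⊆ Finset.Icc 1 (2 * (n : ℤ)) ∧ A.card = n ∧
      ∀ k, (ov n A k : ℝ) ≤ s * n := by
  have hNr : (0 : ℝ) < N₂ := by exact_mod_cast hN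
  have hV0 : 0 ≤ V := by
    refine le_trans ?_ (hV 0)
    refine Finset.sum_nonneg fun c _ => ?_
    have h2m : (0 : ℝ) < 2 ^ m := by positivity
    refine mul_nonneg (by positivity) (sub_nonneg.2 ?_)
    rw [div_le_one h2m]
    have : Ut m (2 * N₂) u (c - 0) ≤ 2 ^ m := by
      unfold Ut
      split_ifs
      · exact hu _
      · exact le_rfl
    exact_mod_cast this
  set v : ℝ := V / N₂ with hv
  have hv0 : 0 ≤ v := div_nonneg hV0 hNr.le
  set δ : ℝ := s - v with hδ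
  have hδ0 : 0 < δ := sub_pos.2 hs
  -- parameters
  set ε : ℝ := min (δ / 16) 1 with hε
  have hε0 : 0 < ε := lt_min (by positivity) one_pos
  have hε1 : ε ≤ δ / 16 := min_le_left _ _
  have hε2 : ε ≤ 1 := min_le_right _ _
  obtain ⟨P, hP, lam, hG⟩ := exists_good m ε hε0
  have hPpos : 0 < P := Nat.pos_of_ne_zero (NeZero.ne P)
  -- the bound for large T
  obtain ⟨T0, hT0⟩ := exists_nat_gt (16 * (v + 2) / δ)
  obtain ⟨B, hB⟩ : ∃ B : ℕ, (8 * (N₂ * P) : ℝ) / δ < B := exists_nat_gt _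
  refine ⟨(N₂ * P) * (T0 + 1) + B, fun n hn => ?_⟩
  have hNP : 0 < N₂ * P := Nat.mul_pos hN hPpos
  set T : ℕ := n / (N₂ * P) with hT
  set t : ℕ := n % (N₂ * P) with ht
  have hnT : N₂ * (P * T) + t = n := by
    rw [← mul_assoc]; exact Nat.div_add_mod n (N₂ * P)
  have htlt : t < N₂ * P := Nat.mod_lt _ hNP
  have hTT : T0 + 1 ≤ T := by
    rw [hT, Nat.le_div_iff_mul_le hNP]
    calc (T0 + 1) * (N₂ * P) = (N₂ * P) * (T0 + 1) := by ring
      _ ≤ n := (Nat.le_add_right _ _).trans hn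
  have hTpos : 0 < T := by omega
  obtain ⟨A, hA, hAc, hAo⟩ := construct hG hε0.le N₂ hN u hu hsum V hV T hTpos
  set n1 : ℕ := N₂ * (P * T) with hn1
  have hn1n : n1 ≤ n := by omega
  have hn1r : (n1 : ℝ) ≤ n := by exact_mod_cast hn1n
  -- adjust the cardinality
  obtain ⟨d, hd1, hd2⟩ : ∃ d : ℕ, (d : ℝ) ≤ 2 * ε * n1 ∧ (A.card ≤ n1 + d ∧ n1 ≤ A.card + d) := by
    rcases le_total A.card n1 with h | h
    · refine ⟨n1 - A.card, ?_, by omega, by omega⟩
      rw [Nat.cast_sub h]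
      have := (abs_le.1 hAc).1
      linarith
    · refine ⟨A.card - n1, ?_, by omega, by omega⟩
      rw [Nat.cast_sub h]
      have := (abs_le.1 hAc).2
      linarith
  obtain ⟨A1, hA1, hA1c, hA1o⟩ := fix_card n1 A hA d hd2.1 hd2.2
  obtain ⟨A2, hA2, hA2c, hA2o⟩ := ext_many n1 A1 hA1 hA1c t
  rw [hnT] at hA2 hA2c hA2o
  refine ⟨A2, hA2, hA2c, fun k => ?_⟩
  have h1 : (ov n A2 k : ℝ) ≤ ov n1 A k + d + 2 * t := by
    have h2 := hA2o k
    have h3 := hA1o k
    exact_mod_cast h2.trans (Nat.add_le_add_right h3 _)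
  have h2 := hAo k
  have hTr : (0 : ℝ) < T := by exact_mod_cast hTpos
  have h3 : (v + 2) * (2 / T) ≤ δ / 8 := by
    have h4 : 16 * (v + 2) / δ < T := hT0.trans_le (by
      have : T0 ≤ T := by omega
      exact_mod_cast this)
    rw [div_lt_iff₀ hδ0] at h4
    rw [mul_div_assoc', div_le_iff₀ hTr]
    nlinarith
  have hn0 : (0 : ℝ) ≤ n := Nat.cast_nonneg n
  have hn10 : (0 : ℝ) ≤ n1 := Nat.cast_nonneg n1
  have h5 : (1 + 2 / (T : ℝ)) * (v + 2 * ε) ≤ v + δ / 2 := by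
    have h6 : (v + 2 * ε) * (2 / (T : ℝ)) ≤ (v + 2) * (2 / T) := by
      apply mul_le_mul_of_nonneg_right _ (by positivity)
      linarith
    have h7 : (1 + 2 / (T : ℝ)) * (v + 2 * ε) = v + 2 * ε + (v + 2 * ε) * (2 / T) := by ring
    rw [h7]
    linarith
  have h6 : (1 + 2 / (T : ℝ)) * (v + 2 * ε) * n1 ≤ (v + δ / 2) * n :=
    mul_le_mul h5 hn1r hn10 (by positivity)
  have h7 : (d : ℝ) ≤ δ / 8 * n := by
    refine hd1.trans ?_
    have : 2 * ε ≤ δ / 8 := by linarith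
    exact mul_le_mul this hn1r hn10 (by positivity)
  have h8 : 2 * (t : ℝ) ≤ δ / 4 * n := by
    have h9 : (t : ℝ) ≤ N₂ * P := by exact_mod_cast htlt.le
    have h10 : (B : ℝ) ≤ n := by
      have : B ≤ n := (Nat.le_add_left _ _).trans hn
      exact_mod_cast this
    rw [div_lt_iff₀ hδ0] at hB
    nlinarith
  have h9 : s = v + δ := by rw [hδ]; ring
  rw [h9]
  nlinarith

end Pool.Agent.Work.MP_62db8e_nt.Up
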