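import Mathlib
import Pool.Agent.Work.MP_62db8e_nt.Up.Asm

/-!
# Checking the overlaps of a list of heights
-/

set_option autoImplicit false

namespace Pool.Agent.Work.MP_62db8e_nt.Up

open Finset

/-- scalar product of lists (of the length of the shorter one) -/
def dot : List ℕ → List ℕ → ℕ
  | a :: l, b :: l' => a * b + dot l l'
  | _, _ => 0

/-- `dot (l.drop q) v ≤ W` for all `q` -/
def chk1 (W : ℕ) : List ℕ → List ℕ → Bool
  | [], _ => true
  | a :: l, v => Nat.ble (dot (a :: l) v) W && chk1 W l v

/-- `dot l (v.drop q) ≤ W` for all `q` -/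
def chk2 (W : ℕ) (l : List ℕ) : List ℕ → Bool
  | [] => true
  | b :: v => Nat.ble (dot l (b :: v)) W && chk2 W l v

theorem dot_nil_right (l : List ℕ) : dot l [] = 0 := by cases l <;> rfl

theorem dot_nil_left (l : List ℕ) : dot [] l = 0 := by cases l <;> rfl

theorem dot_eq (l v : List ℕ) (n : ℕ) (hn : l.length ≤ n ∨ v.length ≤ n) :
    dot l v = ∑ i ∈ range n, l.getD i 0 * v.getD i 0 := by
  induction n generalizing l v with
  | zero =>
    rcases hn with h | h
    · rw [List.length_eq_zero_iff.1 (Nat.le_zero.1 h), dot_nil_left]; simp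
    · rw [List.length_eq_zero_iff.1 (Nat.le_zero.1 h), dot_nil_right]; simp
  | succ n ih =>
    rw [Finset.sum_range_succ']
    cases l with
    | nil => rw [dot_nil_left]; simp
    | cons a l =>
      cases v with
      | nil => rw [dot_nil_right]; simp
      | cons b v =>
        have h1 : dot (a :: l) (b :: v) = a * b + dot l v := rfl
        rw [h1, ih l v (by simpa using hn)]
        simp [add_comm]

theorem chk1_spec (W : ℕ) (l v : List ℕ) (h : chk1 W l v = true) (q : ℕ) :
    dot (l.drop q) v ≤ W := by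
  induction l generalizing q with
  | nil => simp [dot_nil_left]
  | cons a l ih =>
    simp only [chk1, Bool.and_eq_true, Nat.ble_eq] at h
    cases q with
    | zero => exact h.1
    | succ q => exact ih h.2 q

theorem chk2_spec (W : ℕ) (l v : List ℕ) (h : chk2 W l v = true) (q : ℕ) :
    dot l (v.drop q) ≤ W := by
  induction v generalizing q with
  | nil => simp [dot_nil_right]
  | cons a v ih =>
    simp only [chk2, Bool.and_eq_true, Nat.ble_eq] at h
    cases q with
    | zero => exact h.1
    | succ q => exact ih h.2 q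

/-- the list of the complementary heights -/
def compl (D : ℕ) (l : List ℕ) : List ℕ := l.map (fun x => D - x)

/-- all heights are at most `D` -/
def allLe (D : ℕ) : List ℕ → Bool
  | [] => true
  | a :: l => Nat.ble a D && allLe D l

theorem allLe_spec (D : ℕ) (l : List ℕ) (h : allLe D l = true) (i : ℕ) : l.getD i 0 ≤ D := by
  induction l generalizing i with
  | nil => simp
  | cons a l ih =>
    simp only [allLe, Bool.and_eq_true, Nat.ble_eq] at h
    cases i with
    | zero => simpa using h.1
    | succ i => simpa using ih h.2 i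

theorem sum_getD (l : List ℕ) (n : ℕ) (hn : l.length = n) : ∑ i ∈ range n, l.getD i 0 = l.sum := by
  subst hn
  induction l with
  | nil => simp
  | cons a l ih =>
    rw [List.length_cons, Finset.sum_range_succ', List.sum_cons, ← ih]
    simp [add_comm]

/-- the full check -/
theorem check_spec (m N₂ W : ℕ) (l : List ℕ) (hlen : l.length = 2 * N₂)
    (hle : allLe (2 ^ m) l = true) (h1 : chk1 W l (compl (2 ^ m) l) = true)
    (h2 : chk2 W l (compl (2 ^ m) l) = true) (q : ℤ) :
    ∑ c ∈ range (2 * N₂), (((l.getD c 0 : ℕ) : ℝ) / 2 ^ m) *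
      (1 - (Ut m (2 * N₂) (fun c => l.getD c 0) (c - q) : ℝ) / 2 ^ m) ≤ (W : ℝ) / 4 ^ m := by
  have h2m : (0 : ℝ) < 2 ^ m := by positivity
  have hUt : ∀ c, Ut m (2 * N₂) (fun c => l.getD c 0) c ≤ 2 ^ m := by
    intro c
    unfold Ut
    split_ifs
    · exact allLe_spec _ l hle _
    · exact le_rfl
  -- pass to natural numbers
  have key : ∑ c ∈ range (2 * N₂), l.getD c 0 *
      (2 ^ m - Ut m (2 * N₂) (fun c => l.getD c 0) (c - q)) ≤ W := by
    have hcompl : ∀ i, i < 2 * N₂ → (compl (2 ^ m) l).getD i 0 = 2 ^ m - l.getD i 0 := by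
      intro i hi
      unfold compl
      rw [List.getD_eq_getElem _ _ (by rw [List.length_map, hlen]; exact hi),
        List.getD_eq_getElem _ _ (by rw [hlen]; exact hi), List.getElem_map]
    have hcl : (compl (2 ^ m) l).length = 2 * N₂ := by
      unfold compl; rw [List.length_map, hlen]
    rcases le_total 0 q with hq | hq
    · obtain ⟨t, rfl⟩ := Int.eq_ofNat_of_zero_le hq
      refine le_trans ?_ (chk1_spec W l _ h1 t)
      rw [dot_eq _ _ (2 * N₂) (Or.inr hcl.le)]
      -- terms with `c < t` vanish
      rcases le_total (2 * N₂) t with ht | ht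
      · have h3 : ∀ c ∈ range (2 * N₂), l.getD c 0 *
            (2 ^ m - Ut m (2 * N₂) (fun c => l.getD c 0) ((c : ℤ) - (t : ℤ))) = 0 := by
          intro c hc
          have hc' := Finset.mem_range.1 hc
          have h4 : ¬ (0 ≤ (c : ℤ) - (t : ℤ) ∧ (c : ℤ) - (t : ℤ) < ((2 * N₂ : ℕ) : ℤ)) := by omega
          unfold Ut
          rw [if_neg h4, Nat.sub_self, mul_zero]
        rw [Finset.sum_eq_zero h3]
        exact Nat.zero_le _
      · obtain ⟨s, hs⟩ := Nat.exists_eq_add_of_le ht
        rw [hs, Finset.sum_range_add]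
        have h3 : ∑ c ∈ range t, l.getD c 0 *
            (2 ^ m - Ut m (t + s) (fun c => l.getD c 0) ((c : ℤ) - (t : ℤ))) = 0 := by
          refine Finset.sum_eq_zero fun c hc => ?_
          have hc' := Finset.mem_range.1 hc
          have h4 : ¬ (0 ≤ (c : ℤ) - (t : ℤ) ∧ (c : ℤ) - (t : ℤ) < ((t + s : ℕ) : ℤ)) := by omega
          unfold Ut
          rw [if_neg h4, Nat.sub_self, mul_zero]
        rw [h3, zero_add, add_comm t s, Finset.sum_range_add]
        refine le_trans ?_ (Nat.le_add_right _ _)
        refine Finset.sum_le_sum fun i hi => ?_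
        have hi' := Finset.mem_range.1 hi
        have h5 : (((t + i : ℕ) : ℤ) - (t : ℤ)) = (i : ℤ) := by push_cast; ring
        have h6 : Ut m (s + t) (fun c => l.getD c 0) ((i : ℕ) : ℤ) = l.getD i 0 := by
          unfold Ut
          rw [if_pos ⟨by positivity, by exact_mod_cast (show i < s + t by omega)⟩,
            Int.toNat_natCast]
        rw [h5, h6, hcompl i (by omega)]
        apply le_of_eq
        congr 1
        rw [List.getD_eq_getElem?_getD, List.getD_eq_getElem?_getD, List.getElem?_drop]
    · obtain ⟨t, ht0⟩ := Int.eq_ofNat_of_zero_le (neg_nonneg.2 hq)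
      have hqt : q = -(t : ℤ) := by omega
      subst hqt
      refine le_trans ?_ (chk2_spec W l _ h2 t)
      rw [dot_eq _ _ (2 * N₂) (Or.inl hlen.le)]
      refine Finset.sum_le_sum fun c hc => ?_
      have hc' := Finset.mem_range.1 hc
      apply Nat.mul_le_mul_left
      have h3 : (c : ℤ) - -(t : ℤ) = ((c + t : ℕ) : ℤ) := by push_cast; ring
      rw [h3]
      by_cases hct : c + t < 2 * N₂
      · have h6 : Ut m (2 * N₂) (fun c => l.getD c 0) ((c + t : ℕ) : ℤ) = l.getD (c + t) 0 := by
          unfold Ut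
          rw [if_pos ⟨by positivity, by exact_mod_cast hct⟩, Int.toNat_natCast]
        rw [h6, List.getD_eq_getElem?_getD (l := (compl (2 ^ m) l).drop t), List.getElem?_drop,
          ← List.getD_eq_getElem?_getD, add_comm t c, hcompl _ hct]
      · have h6 : Ut m (2 * N₂) (fun c => l.getD c 0) ((c + t : ℕ) : ℤ) = 2 ^ m := by
          unfold Ut
          rw [if_neg]
          rintro ⟨_, h⟩
          exact hct (by exact_mod_cast h)
        rw [h6, Nat.sub_self]
        exact Nat.zero_le _
  have h3 : ∑ c ∈ range (2 * N₂), (((l.getD c 0 : ℕ) : ℝ) / 2 ^ m) *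
      (1 - (Ut m (2 * N₂) (fun c => l.getD c 0) (c - q) : ℝ) / 2 ^ m) =
      ((∑ c ∈ range (2 * N₂), l.getD c 0 *
        (2 ^ m - Ut m (2 * N₂) (fun c => l.getD c 0) (c - q)) : ℕ) : ℝ) / 4 ^ m := by
    rw [Nat.cast_sum, Finset.sum_div]
    refine Finset.sum_congr rfl fun c _ => ?_
    rw [Nat.cast_mul, Nat.cast_sub (hUt _)]
    push_cast
    have h4 : (4 : ℝ) ^ m = 2 ^ m * 2 ^ m := by rw [← mul_pow]; norm_num
    rw [h4]
    field_simp
  rw [h3]
  gcongr

end Pool.Agent.Work.MP_62db8e_nt.Up
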